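import Mathlib
import Pool.Agent.Lib.MP_96c1b1_nt.Count86
import Pool.Agent.Lib.MP_96c1b1_nt.Nth86

/-!
MP_96c1b1_nt: few `n` have a small `q` as in Q1 or Q2.

Proof.  For fixed `c` a sieve of dimension 2 (the primes `l = 1 mod 4` exclude three classes for
`v`, the others one) bounds the number of primes `v < X` such that `(v - e)² + c²` is prime by a
constant times `X (log log X)² / (log X)²`, uniformly in `c ≤ X`; `v = p_n`, `X = p_N + 1`, and
`c` runs over the `p_q` and `p_q - 1` with `q ≤ y`.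
-/

set_option autoImplicit false

namespace Pool.Agent.Results.MP_96c1b1_nt.LeastWitness

open Finset Filter

/-- The `j`-th prime: `pr 1 = 2`, `pr 2 = 3`, ... -/
noncomputable def pr (j : ℕ) : ℕ := Nat.nth Nat.Prime (j - 1)

/-- `q` is a prime below `n` as asked for in Q1 or in Q2. -/
def Witness (n q : ℕ) : Prop :=
  q.Prime ∧ q < n ∧ ((pr q ^ 2 + (pr n - 1) ^ 2).Prime ∨ ((pr q - 1) ^ 2 + pr n ^ 2).Prime)

theorem pr_prime (j : ℕ) : (pr j).Prime := Nat.prime_nth_prime _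

theorem pr_mono {i j : ℕ} (h : i ≤ j) : pr i ≤ pr j :=
  (Nat.nth_monotone Nat.infinite_setOf_prime) (Nat.sub_le_sub_right h 1)

theorem pr_inj {i j : ℕ} (hi : 1 ≤ i) (hj : 1 ≤ j) (h : pr i = pr j) : i = j := by
  have := (Nat.nth_strictMono Nat.infinite_setOf_prime).injective h
  omega

theorem le_pr (N : ℕ) : N ≤ pr N + 1 := by
  have h : N - 1 ≤ Nat.nth Nat.Prime (N - 1) :=
    (Nat.nth_strictMono Nat.infinite_setOf_prime).le_apply
  unfold pr
  omega

theorem count_witness (N : ℕ) (y : ℝ) (hy : 0 ≤ y) (M : ℝ)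
    (hM : open Classical in ∀ c e : ℕ, 1 ≤ c → c ≤ pr N + 1 → e ≤ 1 →
      (((range (pr N + 1)).filter
        (fun v => v.Prime ∧ ((v - e) ^ 2 + c ^ 2).Prime)).card : ℝ) ≤ M) :
    open Classical in
    (((Icc 1 N).filter (fun n => ∃ q : ℕ, (q : ℝ) ≤ y ∧ Witness n q)).card : ℝ) ≤
      y * (2 * M) := by
  classical
  set A : ℕ → ℕ → Finset ℕ := fun c e =>
    (range (pr N + 1)).filter (fun v => v.Prime ∧ ((v - e) ^ 2 + c ^ 2).Prime) with hA
  set Qs : Finset ℕ := (Icc 1 ⌊y⌋₊).filter (fun q => pr q ≤ pr N) with hQs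
  have h1 : ((Icc 1 N).filter (fun n => ∃ q : ℕ, (q : ℝ) ≤ y ∧ Witness n q)).image pr ⊆
      Qs.biUnion (fun q => A (pr q) 1 ∪ A (pr q - 1) 0) := by
    intro v hv
    rw [mem_image] at hv
    obtain ⟨n, hn, rfl⟩ := hv
    rw [mem_filter, mem_Icc] at hn
    obtain ⟨⟨h1, h2⟩, q, hqy, hqp, hqn, hor⟩ := hn
    rw [mem_biUnion]
    refine ⟨q, ?_, ?_⟩
    · rw [hQs, mem_filter, mem_Icc]
      exact ⟨⟨hqp.one_le, Nat.le_floor hqy⟩, pr_mono (by omega)⟩
    · have hr : pr n ∈ range (pr N + 1) := by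
        rw [mem_range]
        have := pr_mono h2
        omega
      rw [mem_union]
      rcases hor with h | h
      · left
        rw [hA]; simp only
        rw [mem_filter]
        refine ⟨hr, pr_prime n, ?_⟩
        rw [add_comm]; exact h
      · right
        rw [hA]; simp only
        rw [mem_filter]
        refine ⟨hr, pr_prime n, ?_⟩
        rw [Nat.sub_zero, add_comm]; exact h
  have h2 : ((Icc 1 N).filter (fun n => ∃ q : ℕ, (q : ℝ) ≤ y ∧ Witness n q)).card =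
      (((Icc 1 N).filter (fun n => ∃ q : ℕ, (q : ℝ) ≤ y ∧ Witness n q)).image pr).card := by
    symm
    apply card_image_of_injOn
    intro i hi j hj h
    rw [mem_coe, mem_filter, mem_Icc] at hi hj
    exact pr_inj hi.1.1 hj.1.1 h
  have h3 : (((Icc 1 N).filter (fun n => ∃ q : ℕ, (q : ℝ) ≤ y ∧ Witness n q)).card : ℝ) ≤
      ∑ q ∈ Qs, ((A (pr q) 1 ∪ A (pr q - 1) 0).card : ℝ) := by
    rw [h2]
    exact_mod_cast (card_le_card h1).trans card_biUnion_le
  have h4 : ∑ q ∈ Qs, ((A (pr q) 1 ∪ A (pr q - 1) 0).card : ℝ) ≤ ∑ _q ∈ Qs, (2 * M) := by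
    apply sum_le_sum
    intro q hq
    rw [hQs, mem_filter] at hq
    have h5 := (pr_prime q).two_le
    have h6 := hM (pr q) 1 (by omega) (by omega) le_rfl
    have h7 := hM (pr q - 1) 0 (by omega) (by omega) (by omega)
    have h8 : ((A (pr q) 1 ∪ A (pr q - 1) 0).card : ℝ) ≤
        ((A (pr q) 1).card : ℝ) + ((A (pr q - 1) 0).card : ℝ) := by
      exact_mod_cast card_union_le _ _
    linarith
  rw [sum_const, nsmul_eq_mul] at h4
  have hM0 : 0 ≤ M := le_trans (Nat.cast_nonneg _) (hM 1 0 le_rfl (by omega) (by omega))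
  have h5 : (Qs.card : ℝ) ≤ y := by
    have h6 : Qs.card ≤ ⌊y⌋₊ := by
      refine (card_filter_le _ _).trans ?_
      rw [Nat.card_Icc, Nat.add_sub_cancel]
    calc (Qs.card : ℝ) ≤ (⌊y⌋₊ : ℝ) := by exact_mod_cast h6
      _ ≤ y := Nat.floor_le hy
  calc _ ≤ _ := h3
    _ ≤ _ := h4
    _ ≤ _ := mul_le_mul_of_nonneg_right h5 (by linarith)

open Classical in
/-- There are `C > 0` and `N₀` such that for all `N ≥ N₀` and all real `y ≥ 0` at most
`C y N (log log N)² / log N` of the `n ≤ N` have a prime `q ≤ y` as asked for in Q1 or Q2. -/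
theorem result : ∃ C : ℝ, 0 < C ∧ ∃ N₀ : ℕ, ∀ N : ℕ, N₀ ≤ N → ∀ y : ℝ, 0 ≤ y →
    (((Icc 1 N).filter (fun n => ∃ q : ℕ, (q : ℝ) ≤ y ∧ Witness n q)).card : ℝ) ≤
      C * y * (N * Real.log (Real.log N) ^ 2 / Real.log N) := by
  obtain ⟨K, hK, hcount⟩ := Pool.Agent.Lib.MP_96c1b1_nt.count_le
  have hX : Tendsto (fun N : ℕ => pr N + 1) atTop atTop :=
    tendsto_atTop_mono le_pr tendsto_id
  have hlog := Real.tendsto_log_atTop.comp (tendsto_natCast_atTop_atTop (R := ℝ))
  obtain ⟨N₀, hN₀⟩ := eventually_atTop.1 (((hX.eventually hcount).and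
    Pool.Agent.Lib.MP_96c1b1_nt.nth_le).and ((hlog.eventually_ge_atTop 5).and
      (eventually_ge_atTop 64)))
  refine ⟨32 * K, by positivity, N₀, fun N hN y hy => ?_⟩
  obtain ⟨⟨h1, h2⟩, h3, h64⟩ := hN₀ N hN
  simp only [Function.comp] at h3
  have h2' : ((pr N : ℕ) : ℝ) + 1 ≤ 4 * N * Real.log ((pr N : ℕ) + 1) := h2
  have h5 := count_witness N y hy _ h1
  refine h5.trans ?_
  set X : ℝ := ((pr N + 1 : ℕ) : ℝ) with hXdef
  have hXe : ((pr N : ℕ) : ℝ) + 1 = X := by rw [hXdef]; push_cast; ring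
  rw [hXe] at h2'
  have hNX : (N : ℝ) ≤ X := by
    rw [hXdef]
    exact_mod_cast le_pr N
  have hN64 : (64 : ℝ) ≤ N := by exact_mod_cast h64
  have hN0 : (0 : ℝ) < N := by linarith
  have hX0 : 0 < X := by linarith
  set l : ℝ := Real.log N with hl
  set L : ℝ := Real.log X with hL
  have hlL : l ≤ L := Real.log_le_log hN0 hNX
  have hL0 : 0 < L := by linarith
  have hl0 : 0 < l := by linarith
  have hL3 : L ≤ 3 * l := by
    have h6 := Real.log_le_rpow_div hX0.le (show (0 : ℝ) < 1 / 2 by norm_num)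
    have h7 : L ≤ 2 * X ^ (1 / 2 : ℝ) := by
      calc L ≤ X ^ (1 / 2 : ℝ) / (1 / 2) := h6
        _ = _ := by ring
    set s : ℝ := X ^ (1 / 2 : ℝ) with hs
    have hs0 : 0 < s := by positivity
    have hss : s * s = X := by
      rw [hs, ← Real.rpow_add hX0]
      norm_num
    have h8 : s * s ≤ 4 * N * (2 * s) := by
      calc s * s = X := hss
        _ ≤ 4 * N * L := h2'
        _ ≤ 4 * N * (2 * s) := mul_le_mul_of_nonneg_left h7 (by positivity)
    have h9 : s ≤ 8 * N := by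
      have h10 : s * s ≤ (8 * N) * s := by linarith
      exact le_of_mul_le_mul_right h10 hs0
    have h10 : X ≤ (N : ℝ) ^ 3 := by
      rw [← hss]
      calc s * s ≤ (8 * N) * (8 * N) := mul_le_mul h9 h9 hs0.le (by positivity)
        _ = 64 * (N : ℝ) ^ 2 := by ring
        _ ≤ N * (N : ℝ) ^ 2 := mul_le_mul_of_nonneg_right hN64 (by positivity)
        _ = (N : ℝ) ^ 3 := by ring
    have h11 : L ≤ Real.log ((N : ℝ) ^ 3) := Real.log_le_log hX0 h10
    rw [Real.log_pow] at h11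
    exact_mod_cast h11
  have h6 : Real.log (L + 8) ≤ 2 * Real.log l := by
    have h7 : L + 8 ≤ l ^ 2 := by nlinarith
    calc Real.log (L + 8) ≤ Real.log (l ^ 2) := Real.log_le_log (by linarith) h7
      _ = 2 * Real.log l := by rw [Real.log_pow]; norm_num
  have h60 : 0 ≤ Real.log (L + 8) := Real.log_nonneg (by linarith)
  have h7 : Real.log (L + 8) ^ 2 ≤ 4 * Real.log l ^ 2 := by
    calc Real.log (L + 8) ^ 2 ≤ (2 * Real.log l) ^ 2 := pow_le_pow_left₀ h60 h6 2
      _ = 4 * Real.log l ^ 2 := by ring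
  have h8 : X / L ^ 2 ≤ 4 * N / l := by
    rw [div_le_div_iff₀ (by positivity) hl0]
    calc X * l ≤ (4 * N * L) * L := mul_le_mul h2' hlL hl0.le (by positivity)
      _ = 4 * N * L ^ 2 := by ring
  have h9 : X * Real.log (L + 8) ^ 2 / L ^ 2 ≤ 16 * (N * Real.log l ^ 2 / l) := by
    calc X * Real.log (L + 8) ^ 2 / L ^ 2 = (X / L ^ 2) * Real.log (L + 8) ^ 2 := by ring
      _ ≤ (4 * N / l) * (4 * Real.log l ^ 2) :=
          mul_le_mul h8 h7 (by positivity) (by positivity)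
      _ = 16 * (N * Real.log l ^ 2 / l) := by ring
  calc y * (2 * (K * (X * Real.log (L + 8) ^ 2 / L ^ 2)))
      ≤ y * (2 * (K * (16 * (N * Real.log l ^ 2 / l)))) := by
        apply mul_le_mul_of_nonneg_left _ hy
        apply mul_le_mul_of_nonneg_left _ (by norm_num)
        exact mul_le_mul_of_nonneg_left h9 hK.le
    _ = 32 * K * y * (N * Real.log l ^ 2 / l) := by ring

end Pool.Agent.Results.MP_96c1b1_nt.LeastWitness
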